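import Mathlib

/-!
# Turán hypergraphs without a complete `(k+1)`-set, cocycles, counting
-/

open Finset

namespace Pool.Agent.Helper32.TC

variable {n k : ℕ}

/-- `H` is `k`-uniform and contains no complete sub-hypergraph on `k + 1` vertices. -/
def Free (k : ℕ) {n : ℕ} (H : Finset (Finset (Fin n))) : Prop :=
  (∀ e ∈ H, e.card = k) ∧ ∀ S : Finset (Fin n), S.card = k + 1 → ¬ (S.powersetCard k ⊆ H)

/-- `C` is `k`-uniform and every `k + 1` vertices span an even number of its edges. -/
def Coc (k : ℕ) {n : ℕ} (C : Finset (Finset (Fin n))) : Prop :=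
  (∀ e ∈ C, e.card = k) ∧
    ∀ S : Finset (Fin n), S.card = k + 1 → Even ((C.filter (fun e => e ⊆ S)).card)

open Classical in
/-- The Turán number `T(n, k, k+1)`. -/
noncomputable def turan (n k : ℕ) : ℕ :=
  (univ.filter (fun H : Finset (Finset (Fin n)) => Free k H)).sup card

open Classical in
/-- The largest number of edges of a cocycle. -/
noncomputable def fmax (n k : ℕ) : ℕ :=
  (univ.filter (fun C : Finset (Finset (Fin n)) => Coc k C)).sup card

lemma le_turan {H : Finset (Finset (Fin n))} (h : Free k H) : H.card ≤ turan n k := by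
  classical
  unfold turan
  exact Finset.le_sup (f := card) (mem_filter.2 ⟨mem_univ _, h⟩)

lemma free_empty : Free k (∅ : Finset (Finset (Fin n))) := by
  refine ⟨by simp, fun S hS h => ?_⟩
  have h1 : (S.powersetCard k).card = (k + 1).choose k := by rw [card_powersetCard, hS]
  have h2 := card_le_card h
  rw [h1] at h2
  simp at h2

lemma exists_turan (n k : ℕ) : ∃ H : Finset (Finset (Fin n)), Free k H ∧ H.card = turan n k := by
  classical
  have hne : (univ.filter (fun H : Finset (Finset (Fin n)) => Free k H)).Nonempty :=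
    ⟨∅, mem_filter.2 ⟨mem_univ _, free_empty⟩⟩
  obtain ⟨H, hH, he⟩ := Finset.exists_mem_eq_sup _ hne card
  exact ⟨H, (mem_filter.1 hH).2, he.symm⟩

lemma turan_le {m : ℕ} (h : ∀ H : Finset (Finset (Fin n)), Free k H → H.card ≤ m) :
    turan n k ≤ m := by
  obtain ⟨H, hH, he⟩ := exists_turan n k
  rw [← he]; exact h H hH

lemma le_fmax {C : Finset (Finset (Fin n))} (h : Coc k C) : C.card ≤ fmax n k := by
  classical
  unfold fmax
  exact Finset.le_sup (f := card) (mem_filter.2 ⟨mem_univ _, h⟩)

/-- For even `k` a cocycle contains no complete `(k+1)`-set. -/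
lemma Coc.free (hk : Even k) {C : Finset (Finset (Fin n))} (h : Coc k C) : Free k C := by
  refine ⟨h.1, fun S hS hsub => ?_⟩
  have h1 := h.2 S hS
  have h2 : C.filter (fun e => e ⊆ S) = S.powersetCard k := by
    ext e
    rw [mem_filter, mem_powersetCard]
    constructor
    · rintro ⟨he, hes⟩
      exact ⟨hes, h.1 e he⟩
    · rintro ⟨hes, hec⟩
      exact ⟨hsub (mem_powersetCard.2 ⟨hes, hec⟩), hes⟩
  rw [h2, card_powersetCard, hS, Nat.choose_succ_self_right] at h1
  rcases hk with ⟨a, rfl⟩
  rcases h1 with ⟨b, hb⟩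
  omega

lemma fmax_le_turan (hk : Even k) : fmax n k ≤ turan n k := by
  classical
  unfold fmax
  refine Finset.sup_le fun C hC => ?_
  exact le_turan ((mem_filter.1 hC).2.free hk)

/-! ### counting -/

/-- the `(k+1)`-sets containing a `k`-set -/
lemma card_supersets {e : Finset (Fin n)} (he : e.card = k) :
    ((univ.powersetCard (k + 1)).filter (fun S => e ⊆ S)).card = n - k := by
  classical
  have h : (univ.powersetCard (k + 1)).filter (fun S => e ⊆ S)
      = (eᶜ).image (fun x => insert x e) := by
    ext S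
    rw [mem_filter, mem_powersetCard, mem_image]
    constructor
    · rintro ⟨⟨-, hS⟩, heS⟩
      have h1 : (S \ e).card = 1 := by
        rw [card_sdiff_of_subset heS, hS, he]; omega
      obtain ⟨x, hx⟩ := card_eq_one.1 h1
      have hxS : x ∈ S \ e := by rw [hx]; exact mem_singleton_self x
      refine ⟨x, mem_compl.2 (mem_sdiff.1 hxS).2, ?_⟩
      rw [insert_eq, ← hx, union_comm]
      exact union_sdiff_of_subset heS
    · rintro ⟨x, hx, rfl⟩
      refine ⟨⟨subset_univ _, ?_⟩, subset_insert _ _⟩
      rw [card_insert_of_notMem (mem_compl.1 hx), he]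
  rw [h, card_image_of_injOn, card_compl, he, Fintype.card_fin]
  intro x hx y hy hxy
  have hx' : x ∉ e := mem_compl.1 hx
  have h1 : x ∈ insert y e := by
    have : x ∈ insert x e := mem_insert_self x e
    rwa [show (insert x e : Finset (Fin n)) = insert y e from hxy] at this
  rcases mem_insert.1 h1 with h2 | h2
  · exact h2
  · exact absurd h2 hx'

/-- the `(k+1)`-sets containing a `k`-set and avoiding `v` -/
lemma card_supersets_avoid {e : Finset (Fin n)} (he : e.card = k) {v : Fin n} (hv : v ∉ e) :
    ((univ.powersetCard (k + 1)).filter (fun S => v ∉ S ∧ e ⊆ S)).card = n - k - 1 := by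
  classical
  have h := card_supersets (n := n) he
  have h1 : (univ.powersetCard (k + 1)).filter (fun S => v ∉ S ∧ e ⊆ S)
      = ((univ.powersetCard (k + 1)).filter (fun S => e ⊆ S)).erase (insert v e) := by
    ext S
    rw [mem_filter, mem_erase, mem_filter]
    constructor
    · rintro ⟨h1, h2, h3⟩
      refine ⟨?_, h1, h3⟩
      rintro rfl
      exact h2 (mem_insert_self _ _)
    · rintro ⟨h1, h2, h3⟩
      refine ⟨h2, fun hvS => h1 ?_, h3⟩
      have h4 : insert v e ⊆ S := insert_subset hvS h3
      refine (eq_of_subset_of_card_le h4 ?_).symm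
      rw [(mem_powersetCard.1 h2).2, card_insert_of_notMem hv, he]
  rw [h1, card_erase_of_mem, h]
  rw [mem_filter, mem_powersetCard]
  refine ⟨⟨subset_univ _, ?_⟩, subset_insert _ _⟩
  rw [card_insert_of_notMem hv, he]

/-- double counting over all `(k+1)`-sets -/
lemma sum_edges {H : Finset (Finset (Fin n))} (hH : ∀ e ∈ H, e.card = k) :
    ∑ S ∈ univ.powersetCard (k + 1), (H.filter (fun e => e ⊆ S)).card = (n - k) * H.card := by
  classical
  simp_rw [card_filter]
  rw [sum_comm]
  rw [sum_congr rfl (g := fun _ => n - k)]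
  · rw [sum_const, smul_eq_mul, mul_comm]
  · intro e he
    rw [← card_filter, card_supersets (hH e he)]

/-- double counting over the `(k+1)`-sets avoiding `v` -/
lemma sum_edges_avoid {H : Finset (Finset (Fin n))} (hH : ∀ e ∈ H, e.card = k) (v : Fin n) :
    ∑ S ∈ (univ.powersetCard (k + 1)).filter (fun S => v ∉ S), (H.filter (fun e => e ⊆ S)).card
      = (n - k - 1) * (H.filter (fun e => v ∉ e)).card := by
  classical
  simp_rw [card_filter]
  rw [sum_comm]
  have h : ∀ e ∈ H, ∑ S ∈ (univ.powersetCard (k + 1)).filter (fun S => v ∉ S),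
      (if e ⊆ S then 1 else 0) = if v ∉ e then n - k - 1 else 0 := by
    intro e he
    rw [← card_filter, filter_filter]
    by_cases hv : v ∈ e
    · rw [if_neg (not_not.2 hv), card_eq_zero, filter_eq_empty_iff]
      rintro S - ⟨h1, h2⟩
      exact h1 (h2 hv)
    · rw [if_pos hv]
      exact card_supersets_avoid (hH e he) hv
  rw [sum_congr rfl h, ← sum_filter, sum_const, smul_eq_mul, mul_comm]
  congr 1
  rw [← card_filter]

end Pool.Agent.Helper32.TC
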