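import Pool.Agent.Helper32.TC.Step

/-!
# Coverings give hypergraphs without a complete `(k+1)`-set
-/

open Finset

namespace Pool.Agent.Helper32.TC

/-- `V` has `m` sets of at most `r` elements that cover every `(r-1)`-set. -/
def Cov (r : ℕ) (V : Type) (m : ℕ) : Prop :=
  ∃ (ι : Type) (_ : Fintype ι) (f : ι → Finset V), (∀ i, (f i).card ≤ r) ∧
    (∀ s : Finset V, s.card + 1 = r → ∃ i, s ⊆ f i) ∧ Fintype.card ι ≤ m

lemma Cov.le_turan {r m k : ℕ} {V : Type} [Fintype V] (hV : Fintype.card V = k + r)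
    (h : Cov r V m) (hr : 1 ≤ r) : (k + r).choose k ≤ turan (k + r) k + m := by
  classical
  obtain ⟨ι, _, f, hf, hcov, hm⟩ := h
  let φ : V ≃ Fin (k + r) := Fintype.equivFinOfCardEq hV
  have hex : ∀ i, ∃ t : Finset (Fin (k + r)), (f i).map φ.toEmbedding ⊆ t ∧ t.card = r := by
    intro i
    exact Finset.exists_superset_card_eq (s := (f i).map φ.toEmbedding) (n := r)
      (by rw [card_map]; exact hf i) (by simp)
  choose t ht1 ht2 using hex
  set H : Finset (Finset (Fin (k + r))) :=
    (univ.powersetCard k).filter (fun e => ∀ i, t i ≠ eᶜ) with hH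
  have hfree : Free k H := by
    refine ⟨fun e he => (mem_powersetCard.1 (mem_filter.1 he).1).2, fun S hS hsub => ?_⟩
    have h1 : (Sᶜ).card + 1 = r := by rw [card_compl, Fintype.card_fin, hS]; omega
    obtain ⟨i, hi⟩ := hcov ((Sᶜ).map φ.symm.toEmbedding) (by rwa [card_map])
    have h2 : Sᶜ ⊆ t i := by
      intro x hx
      have h3 : φ.symm x ∈ f i := hi (mem_map_of_mem φ.symm.toEmbedding hx)
      have h4 := ht1 i (mem_map_of_mem φ.toEmbedding h3)
      simpa using h4
    have h3 : (t i)ᶜ ∈ H := by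
      refine hsub (mem_powersetCard.2 ⟨?_, ?_⟩)
      · rw [← compl_compl S]; exact compl_subset_compl.2 h2
      · rw [card_compl, ht2, Fintype.card_fin]; omega
    exact (mem_filter.1 h3).2 i (compl_compl _).symm
  have hcard : (k + r).choose k ≤ H.card + m := by
    have h1 : ((univ.powersetCard k : Finset (Finset (Fin (k + r)))).filter
        (fun e => ¬ ∀ i, t i ≠ eᶜ)).card ≤ m := by
      refine le_trans ?_ hm
      rw [← card_univ]
      refine (card_le_card (t := univ.image (fun i => (t i)ᶜ)) ?_).trans card_image_le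
      intro e he
      have h2 := (mem_filter.1 he).2
      push Not at h2
      obtain ⟨i, hi⟩ := h2
      rw [mem_image]
      exact ⟨i, mem_univ _, by rw [hi, compl_compl]⟩
    have h2 := card_filter_add_card_filter_not
      (s := (univ.powersetCard k : Finset (Finset (Fin (k + r))))) (fun e => ∀ i, t i ≠ eᶜ)
    rw [card_powersetCard, card_univ, Fintype.card_fin, ← hH] at h2
    omega
  have h5 := TC.le_turan hfree
  omega

lemma cov_three {V : Type} {m : ℕ} {ι : Type} [Fintype ι] (f : ι → Finset V)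
    (hf : ∀ i, (f i).card ≤ 3) (hc : ∀ a b : V, a ≠ b → ∃ i, a ∈ f i ∧ b ∈ f i)
    (hm : Fintype.card ι ≤ m) : Cov 3 V m := by
  classical
  refine ⟨ι, inferInstance, f, hf, fun s hs => ?_, hm⟩
  obtain ⟨a, b, hab, rfl⟩ := card_eq_two.1 (show s.card = 2 by omega)
  obtain ⟨i, h1, h2⟩ := hc a b hab
  exact ⟨i, by
    intro x hx
    rcases mem_insert.1 hx with h | h
    · rw [h]; exact h1
    · rw [mem_singleton.1 h]; exact h2⟩

/-! ### one vertex, perfect matchings -/

lemma cov_one (k : ℕ) : Cov 1 (Fin (k + 1)) 1 := by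
  refine ⟨Unit, inferInstance, fun _ => {0}, by simp, fun s hs => ⟨(), ?_⟩, by simp⟩
  have : s = ∅ := card_eq_zero.1 (by omega)
  rw [this]; exact empty_subset _

lemma cov_two (t : ℕ) : Cov 2 (Fin t × Bool) t := by
  classical
  refine ⟨Fin t, inferInstance, fun i => {(i, true), (i, false)}, fun i => card_le_two,
    fun s hs => ?_, by simp⟩
  obtain ⟨⟨i, b⟩, rfl⟩ := card_eq_one.1 (show s.card = 1 by omega)
  refine ⟨i, ?_⟩
  intro x hx
  rw [mem_singleton.1 hx]
  cases b <;> simp

/-! ### triples -/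

/-- the three-layer blocks of a family of commutative operations -/
def blk {X V : Type} [DecidableEq V] (g : X → Fin 3 → V) (q : Fin 3 → X → X → X)
    (hq : ∀ i x y, q i x y = q i y x) : {e : Sym2 X // ¬ e.IsDiag} × Fin 3 → Finset V :=
  fun p => Sym2.lift ⟨fun x y => {g x p.2, g y p.2, g (q p.2 x y) (p.2 + 1)}, fun x y => by
    show ({g x p.2, g y p.2, g (q p.2 x y) (p.2 + 1)} : Finset V) =
      {g y p.2, g x p.2, g (q p.2 y x) (p.2 + 1)}
    rw [hq p.2 x y, Finset.insert_comm]⟩ p.1.1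

lemma blk_mk {X V : Type} [DecidableEq V] (g : X → Fin 3 → V) (q : Fin 3 → X → X → X)
    (hq : ∀ i x y, q i x y = q i y x) (x y : X) (hxy : x ≠ y) (i : Fin 3) :
    blk g q hq (⟨s(x, y), by simpa using hxy⟩, i) = {g x i, g y i, g (q i x y) (i + 1)} := rfl

lemma blk_card {X V : Type} [DecidableEq V] (g : X → Fin 3 → V) (q : Fin 3 → X → X → X)
    (hq : ∀ i x y, q i x y = q i y x) (p : {e : Sym2 X // ¬ e.IsDiag} × Fin 3) :
    (blk g q hq p).card ≤ 3 := by
  obtain ⟨⟨e, he⟩, i⟩ := p
  induction e using Sym2.ind with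
  | h x y => exact card_le_three

/-- Pairs inside the layers: only the pairs `(x,i), (q i x x, i+1)` may be left. -/
lemma blk_cover {X V : Type} [DecidableEq V] (g : X → Fin 3 → V) (q : Fin 3 → X → X → X)
    (hq : ∀ i x y, q i x y = q i y x) (hs : ∀ i x w, ∃ y, q i x y = w)
    (P : V → V → Prop) (hP : ∀ a b, P a b → P b a)
    (hblk : ∀ p a b, a ∈ blk g q hq p → b ∈ blk g q hq p → P a b)
    (hdiag : ∀ i x, P (g x i) (g (q i x x) (i + 1))) :
    ∀ x i y j, g x i ≠ g y j → P (g x i) (g y j) := by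
  have h1 : ∀ x i w, P (g x i) (g w (i + 1)) := by
    intro x i w
    obtain ⟨y, rfl⟩ := hs i x w
    by_cases hxy : x = y
    · subst hxy; exact hdiag i x
    · exact hblk (⟨s(x, y), by simpa using hxy⟩, i) _ _
        (by rw [blk_mk g q hq x y hxy i]; simp) (by rw [blk_mk g q hq x y hxy i]; simp)
  intro x i y j hne
  have h3 : j = i ∨ j = i + 1 ∨ i = j + 1 := by
    have h4 : ∀ i j : Fin 3, j = i ∨ j = i + 1 ∨ i = j + 1 := by decide
    exact h4 i j
  rcases h3 with rfl | rfl | rfl
  · have hxy : x ≠ y := fun h => hne (by rw [h])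
    exact hblk (⟨s(x, y), by simpa using hxy⟩, j) _ _
      (by rw [blk_mk g q hq x y hxy j]; simp) (by rw [blk_mk g q hq x y hxy j]; simp)
  · exact h1 x i y
  · exact hP _ _ (h1 y j x)

end Pool.Agent.Helper32.TC
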