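import Pool.Agent.Helper32.TC.Triple

/-!
# The trivial bound, rounded down, is only attained by cocycles
-/

open Finset

namespace Pool.Agent.Helper32.TC

variable {n k : ℕ}

lemma edges_le {H : Finset (Finset (Fin n))} (hH : Free k H) {S : Finset (Fin n)}
    (hS : S.card = k + 1) : (H.filter (fun e => e ⊆ S)).card ≤ k := by
  classical
  have hsub : H.filter (fun e => e ⊆ S) ⊆ S.powersetCard k := by
    intro e he
    obtain ⟨h1, h2⟩ := mem_filter.1 he
    exact mem_powersetCard.2 ⟨h2, hH.1 e h1⟩
  have hc : (S.powersetCard k).card = k + 1 := by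
    rw [card_powersetCard, hS, Nat.choose_succ_self_right]
  by_contra hcon
  push Not at hcon
  have heq : H.filter (fun e => e ⊆ S) = S.powersetCard k :=
    eq_of_subset_of_card_le hsub (by omega)
  exact hH.2 S hS (by rw [← heq]; exact filter_subset _ _)

/-- the trivial bound -/
lemma trivial_bound (hn : k + 1 ≤ n) {H : Finset (Finset (Fin n))} (hH : Free k H) :
    (k + 1) * H.card ≤ k * n.choose k := by
  classical
  have h1 := sum_edges (k := k) hH.1
  have h2 : ∑ S ∈ (univ : Finset (Fin n)).powersetCard (k + 1),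
      (H.filter (fun e => e ⊆ S)).card ≤ ∑ _S ∈ (univ : Finset (Fin n)).powersetCard (k + 1), k :=
    sum_le_sum fun S hS => edges_le hH (mem_powersetCard.1 hS).2
  rw [h1, sum_const, card_powersetCard, card_univ, Fintype.card_fin, smul_eq_mul] at h2
  have h3 := Nat.choose_succ_right_eq n k
  have h4 : (n - k) * ((k + 1) * H.card) ≤ (n - k) * (k * n.choose k) := by
    calc (n - k) * ((k + 1) * H.card) = (k + 1) * ((n - k) * H.card) := by ring
      _ ≤ (k + 1) * (n.choose (k + 1) * k) := Nat.mul_le_mul_left _ h2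
      _ = (n.choose (k + 1) * (k + 1)) * k := by ring
      _ = (n.choose k * (n - k)) * k := by rw [h3]
      _ = (n - k) * (k * n.choose k) := by ring
  exact Nat.le_of_mul_le_mul_left h4 (by omega)

/-- An odd set forces at least `n - k` odd sets. -/
lemma many_odd {H : Finset (Finset (Fin n))} (hH : ∀ e ∈ H, e.card = k)
    {S : Finset (Fin n)} (hS : S.card = k + 1)
    (hodd : ¬ Even ((H.filter (fun e => e ⊆ S)).card)) :
    n - k ≤ (((univ : Finset (Fin n)).powersetCard (k + 1)).filter
      (fun S => ¬ Even ((H.filter (fun e => e ⊆ S)).card))).card := by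
  classical
  have hstep : ∀ x ∈ Sᶜ, ∃ S' ∈ ((insert x S).powersetCard (k + 1)).erase S,
      ¬ Even ((H.filter (fun e => e ⊆ S')).card) := by
    intro x hx
    have hxS : x ∉ S := mem_compl.1 hx
    have hU : (insert x S).card = k + 2 := by rw [card_insert_of_notMem hxS, hS]
    have hsum := sum_edges_inside hH (insert x S)
    rw [hU, show k + 2 - k = 2 by omega] at hsum
    have hmem : S ∈ (insert x S).powersetCard (k + 1) :=
      mem_powersetCard.2 ⟨subset_insert _ _, hS⟩
    rw [← add_sum_erase _ _ hmem] at hsum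
    by_contra hall
    push Not at hall
    have h1 := Finset.even_sum _ hall
    have h2 : Even ((H.filter (fun e => e ⊆ S)).card +
      ∑ S' ∈ ((insert x S).powersetCard (k + 1)).erase S,
        (H.filter (fun e => e ⊆ S')).card) := by
      rw [hsum]; exact even_two_mul _
    exact hodd ((Nat.even_add.1 h2).2 h1)
  choose! T hT1 hT2 using hstep
  -- every `T x` contains `x`
  have hxT : ∀ x ∈ Sᶜ, x ∈ T x := by
    intro x hx
    obtain ⟨h1, h2⟩ := mem_erase.1 (hT1 x hx)
    obtain ⟨h3, h4⟩ := mem_powersetCard.1 h2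
    by_contra hcon
    have h5 : T x ⊆ S := by
      intro y hy
      rcases mem_insert.1 (h3 hy) with h | h
      · exact absurd (h ▸ hy) hcon
      · exact h
    exact h1 (eq_of_subset_of_card_le h5 (by omega))
  have hinj : Set.InjOn T (Sᶜ : Finset (Fin n)) := by
    intro x hx y hy hxy
    have hx' : x ∈ Sᶜ := hx
    have hy' : y ∈ Sᶜ := hy
    have h1 : x ∈ T y := by rw [← hxy]; exact hxT x hx'
    obtain ⟨-, h2⟩ := mem_erase.1 (hT1 y hy')
    rcases mem_insert.1 ((mem_powersetCard.1 h2).1 h1) with h | h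
    · exact h
    · exact absurd h (mem_compl.1 hx')
  have hsub : insert S ((Sᶜ).image T) ⊆ ((univ : Finset (Fin n)).powersetCard (k + 1)).filter
      (fun S => ¬ Even ((H.filter (fun e => e ⊆ S)).card)) := by
    intro R hR
    rcases mem_insert.1 hR with rfl | hR
    · exact mem_filter.2 ⟨mem_powersetCard.2 ⟨subset_univ _, hS⟩, hodd⟩
    · obtain ⟨x, hx, rfl⟩ := mem_image.1 hR
      obtain ⟨-, h2⟩ := mem_erase.1 (hT1 x hx)
      exact mem_filter.2 ⟨mem_powersetCard.2 ⟨subset_univ _, (mem_powersetCard.1 h2).2⟩,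
        hT2 x hx⟩
  have hc := card_le_card hsub
  rw [card_insert_of_notMem, card_image_of_injOn hinj, card_compl, Fintype.card_fin, hS] at hc
  · omega
  · intro h
    obtain ⟨x, hx, hx2⟩ := mem_image.1 h
    exact (mem_erase.1 (hT1 x hx)).1 hx2

/-- A hypergraph within one of the trivial bound is a cocycle. -/
theorem direct (hk : Even k) {H : Finset (Finset (Fin n))} (hH : Free k H)
    (hc : k * n.choose k < (k + 1) * (H.card + 1)) : Coc k H := by
  classical
  refine ⟨hH.1, fun S hS => ?_⟩
  by_contra hodd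
  have hn : k + 1 ≤ n := by
    have := card_le_univ S
    rw [hS, Fintype.card_fin] at this
    exact this
  have h1 := many_odd hH.1 hS hodd
  have h2 := sum_edges (k := k) hH.1
  have h3 : ∑ S ∈ (univ : Finset (Fin n)).powersetCard (k + 1),
      ((H.filter (fun e => e ⊆ S)).card +
        if ¬ Even ((H.filter (fun e => e ⊆ S)).card) then 1 else 0)
      ≤ ∑ _S ∈ (univ : Finset (Fin n)).powersetCard (k + 1), k := by
    refine sum_le_sum fun S hS => ?_
    have h4 := edges_le hH (mem_powersetCard.1 hS).2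
    by_cases h5 : Even ((H.filter (fun e => e ⊆ S)).card)
    · rw [if_neg (not_not.2 h5)]; exact h4
    · rw [if_pos h5]
      refine Nat.lt_of_le_of_ne h4 ?_
      intro h6
      rw [h6] at h5
      exact h5 hk
  rw [sum_add_distrib, h2, ← card_filter, sum_const, card_powersetCard, card_univ,
    Fintype.card_fin, smul_eq_mul] at h3
  have h7 : (n - k) * (H.card + 1) ≤ n.choose (k + 1) * k := by
    rw [Nat.mul_add, mul_one]
    omega
  have h8 := Nat.choose_succ_right_eq n k
  have h9 : (n - k) * ((k + 1) * (H.card + 1)) ≤ (n - k) * (k * n.choose k) := by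
    calc (n - k) * ((k + 1) * (H.card + 1)) = (k + 1) * ((n - k) * (H.card + 1)) := by ring
      _ ≤ (k + 1) * (n.choose (k + 1) * k) := Nat.mul_le_mul_left _ h7
      _ = (n.choose (k + 1) * (k + 1)) * k := by ring
      _ = (n.choose k * (n - k)) * k := by rw [h8]
      _ = (n - k) * (k * n.choose k) := by ring
  have h10 := Nat.le_of_mul_le_mul_left h9 (by omega)
  omega

/-- `T(n,k,k+1)` is the trivial bound, rounded down. -/
def Tight (n k : ℕ) : Prop := k * n.choose k < (k + 1) * (turan n k + 1)

lemma Tight.ext (hk : Even k) (h : Tight n k) : Ext n k := by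
  intro H hH hc
  exact direct hk hH (by rw [hc]; exact h)

lemma Tight.eq (hn : k + 1 ≤ n) (h : Tight n k) : turan n k = k * n.choose k / (k + 1) := by
  obtain ⟨H, hH, he⟩ := exists_turan n k
  have h1 := trivial_bound hn hH
  rw [he] at h1
  unfold Tight at h
  symm
  rw [Nat.div_eq_iff (by omega)]
  constructor
  · linarith
  · have : (k + 1) * (turan n k + 1) = turan n k * (k + 1) + (k + 1) := by ring
    omega

lemma Ext.eq (hk : Even k) (h : Ext n k) : turan n k = fmax n k := by
  refine le_antisymm ?_ (fmax_le_turan hk)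
  obtain ⟨H, hH, he⟩ := exists_turan n k
  rw [← he]
  exact le_fmax (h H hH he)

/-- an efficient covering makes the bound tight -/
lemma tight_of_cov {r m : ℕ} {V : Type} [Fintype V] (hV : Fintype.card V = k + r) (hr : 1 ≤ r)
    (hcov : Cov r V m) (hm : (k + 1) * m < (k + r).choose k + (k + 1)) : Tight (k + r) k := by
  have h1 := hcov.le_turan hV hr
  unfold Tight
  have h2 : (k + 1) * (k + r).choose k ≤ (k + 1) * (turan (k + r) k + m) :=
    Nat.mul_le_mul_left _ h1
  have h3 : (k + 1) * (turan (k + r) k + m) = (k + 1) * turan (k + r) k + (k + 1) * m := by ring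
  have h4 : (k + 1) * (turan (k + r) k + 1) = (k + 1) * turan (k + r) k + (k + 1) := by ring
  have h5 : (k + 1) * (k + r).choose k = k * (k + r).choose k + (k + r).choose k := by ring
  omega

/-- small `n` -/
lemma tight_small (hn : n ≤ k) : Tight n k := by
  unfold Tight
  rcases Nat.lt_or_ge n k with h | h
  · rw [Nat.choose_eq_zero_of_lt h]
    simp
  · have : n = k := le_antisymm hn h
    subst this
    rw [Nat.choose_self]
    have h1 : 1 ≤ (n + 1) * (turan n n + 1) - n := by
      have : (n + 1) * 1 ≤ (n + 1) * (turan n n + 1) := Nat.mul_le_mul_left _ (by omega)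
      omega
    omega

lemma tight_one : Tight (k + 1) k := by
  refine tight_of_cov (V := Fin (k + 1)) (by simp) le_rfl (cov_one k) ?_
  rw [Nat.choose_succ_self_right]
  omega

lemma two_choose (a : ℕ) : 2 * (a + 2).choose 2 = (a + 2) * (a + 1) := by
  rw [Nat.choose_two_right, show a + 2 - 1 = a + 1 by omega]
  refine Nat.mul_div_cancel' ?_
  have := (Nat.even_mul_succ_self (a + 1)).two_dvd
  rwa [mul_comm] at this

lemma two_choose' (a : ℕ) : 2 * (a + 1).choose 2 = (a + 1) * a := by
  rcases a with _ | a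
  · rfl
  · exact two_choose a

lemma six_choose (a : ℕ) : 6 * (a + 3).choose 3 = (a + 3) * ((a + 2) * (a + 1)) := by
  have h1 := Nat.add_one_mul_choose_eq (a + 2) 2
  have h2 := two_choose a
  calc 6 * (a + 3).choose 3 = 2 * ((a + 3).choose 3 * 3) := by ring
    _ = 2 * ((a + 3) * (a + 2).choose 2) := by rw [← h1]
    _ = (a + 3) * (2 * (a + 2).choose 2) := by ring
    _ = _ := by rw [h2]

lemma tight_two (hk : Even k) : Tight (k + 2) k := by
  obtain ⟨s, hs⟩ := hk
  refine tight_of_cov (V := Fin (s + 1) × Bool) (by simp; omega) (by norm_num)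
    (cov_two (s + 1)) ?_
  have h1 : 2 * (k + 2).choose k = (k + 2) * (k + 1) := by
    rw [Nat.choose_symm_of_eq_add (show k + 2 = k + 2 from rfl)]
    exact two_choose k
  have h3 : 2 * ((k + 1) * (s + 1)) = (k + 2) * (k + 1) := by
    rw [show k + 2 = 2 * (s + 1) by omega]; ring
  omega

lemma tight_three (hk : Even k) : Tight (k + 3) k := by
  obtain ⟨s, hs⟩ := hk
  have h1 : 6 * (k + 3).choose k = (k + 3) * ((k + 2) * (k + 1)) := by
    rw [Nat.choose_symm_of_eq_add (show k + 3 = k + 3 from rfl)]
    exact six_choose k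
  obtain ⟨t, ht⟩ : ∃ t, k + 3 = 6 * t + 3 ∨ k + 3 = 6 * t + 1 ∨ k + 3 = 6 * t + 5 := by
    refine ⟨(k + 3) / 6, ?_⟩
    omega
  have key : ∀ m, 6 * m < (k + 3) * (k + 2) + 6 → (k + 1) * m < (k + 3).choose k + (k + 1) := by
    intro m hm
    have h2 : (k + 1) * (6 * m) < (k + 1) * ((k + 3) * (k + 2) + 6) :=
      Nat.mul_lt_mul_of_pos_left hm (by omega)
    have h3 : (k + 1) * ((k + 3) * (k + 2) + 6) = (k + 3) * ((k + 2) * (k + 1)) + 6 * (k + 1) := by
      ring
    have h4 : (k + 1) * (6 * m) = 6 * ((k + 1) * m) := by ring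
    omega
  rcases ht with ht | ht | ht
  · refine tight_of_cov (V := Fin (2 * t + 1) × Fin 3) (by simp; omega) (by norm_num)
      (cov_6t3 t) (key _ ?_)
    have h2 := two_choose' (2 * t)
    have h3 : (k + 3) * (k + 2) = (6 * t + 3) * (6 * t + 2) := by
      rw [show k + 3 = 6 * t + 3 from ht, show k + 2 = 6 * t + 2 by omega]
    rw [h3]
    nlinarith [h2]
  · rcases t with _ | t
    · omega
    refine tight_of_cov (V := Option (Fin (2 * (t + 1)) × Fin 3)) (by simp; omega) (by norm_num)
      (cov_6t1 (t + 1)) (key _ ?_)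
    have h2 := two_choose (2 * t)
    have h3 : (k + 3) * (k + 2) = (6 * t + 7) * (6 * t + 6) := by
      rw [show k + 3 = 6 * t + 7 by omega, show k + 2 = 6 * t + 6 by omega]
    rw [h3, show 2 * (t + 1) = 2 * t + 2 by ring]
    nlinarith [h2]
  · refine tight_of_cov (V := (Fin (2 * t + 1) × Fin 3) ⊕ Bool) (by simp; omega) (by norm_num)
      (cov_6t5 t) (key _ ?_)
    have h2 := two_choose' (2 * t)
    have h3 : (k + 3) * (k + 2) = (6 * t + 5) * (6 * t + 4) := by
      rw [show k + 3 = 6 * t + 5 from ht, show k + 2 = 6 * t + 4 by omega]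
    rw [h3]
    nlinarith [h2]

end Pool.Agent.Helper32.TC
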