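import Pool.Agent.Helper32.TC.Schon

/-!
# Optimal coverings of triples by quadruples: doubling, and three small cases
-/

open Finset

namespace Pool.Agent.Helper32.TC

variable {k : ℕ}

lemma Cov.congr {r m : ℕ} {V W : Type} (e : V ≃ W) (h : Cov r V m) : Cov r W m := by
  classical
  obtain ⟨ι, _, f, hf, hcov, hm⟩ := h
  refine ⟨ι, inferInstance, fun i => (f i).map e.toEmbedding,
    fun i => by rw [card_map]; exact hf i, fun s hs => ?_, hm⟩
  obtain ⟨i, hi⟩ := hcov (s.map e.symm.toEmbedding) (by rwa [card_map])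
  refine ⟨i, fun x hx => ?_⟩
  have h3 : e.symm x ∈ f i := hi (mem_map_of_mem e.symm.toEmbedding hx)
  have h4 := mem_map_of_mem e.toEmbedding h3
  simpa using h4

/-! ### a one-factorization of the complete graph on `2 s + 2` points -/

/-- `m + i` modulo `2 s + 1` -/
def pl (s : ℕ) (m : Fin (2 * s + 1)) (i : Fin (s + 1)) : Fin (2 * s + 1) :=
  ⟨if m.1 + i.1 < 2 * s + 1 then m.1 + i.1 else m.1 + i.1 - (2 * s + 1), by
    have := m.2; have := i.2; split_ifs <;> omega⟩

/-- `m - i` modulo `2 s + 1` -/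
def mi (s : ℕ) (m : Fin (2 * s + 1)) (i : Fin (s + 1)) : Fin (2 * s + 1) :=
  ⟨if i.1 ≤ m.1 then m.1 - i.1 else m.1 + (2 * s + 1) - i.1, by
    have := m.2; have := i.2; split_ifs <;> omega⟩

/-- the `i`-th edge of the `m`-th one-factor -/
def P (s : ℕ) (m : Fin (2 * s + 1)) (i : Fin (s + 1)) : Finset (Option (Fin (2 * s + 1))) :=
  if i.1 = 0 then {none, some m} else {some (pl s m i), some (mi s m i)}

lemma P_card (s : ℕ) (m : Fin (2 * s + 1)) (i : Fin (s + 1)) : (P s m i).card ≤ 2 := by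
  unfold P
  split_ifs <;> exact card_le_two

lemma P_point (s : ℕ) (x : Option (Fin (2 * s + 1))) (m : Fin (2 * s + 1)) :
    ∃ i, x ∈ P s m i := by
  rcases x with _ | x
  · exact ⟨0, by simp [P]⟩
  have hx := x.2
  have hm := m.2
  by_cases h0 : x = m
  · exact ⟨0, by simp [P, h0]⟩
  have h0' : x.1 ≠ m.1 := fun h => h0 (Fin.ext h)
  -- the difference `x - m`
  obtain ⟨d, hd1, hd2, hd3⟩ : ∃ d, 1 ≤ d ∧ d ≤ 2 * s ∧
      (x.1 = m.1 + d ∨ x.1 + (2 * s + 1) = m.1 + d) := by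
    rcases Nat.lt_or_ge x.1 m.1 with h | h
    · exact ⟨x.1 + (2 * s + 1) - m.1, by omega, by omega, Or.inr (by omega)⟩
    · exact ⟨x.1 - m.1, by omega, by omega, Or.inl (by omega)⟩
  by_cases hds : d ≤ s
  · refine ⟨⟨d, by omega⟩, ?_⟩
    have h1 : x = pl s m ⟨d, by omega⟩ := by
      apply Fin.ext
      simp only [pl]
      split_ifs <;> omega
    unfold P
    rw [if_neg (by show ¬ d = 0; omega), ← h1]
    exact mem_insert_self _ _
  · refine ⟨⟨2 * s + 1 - d, by omega⟩, ?_⟩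
    have h1 : x = mi s m ⟨2 * s + 1 - d, by omega⟩ := by
      apply Fin.ext
      simp only [mi]
      split_ifs <;> omega
    unfold P
    rw [if_neg (by show ¬ 2 * s + 1 - d = 0; omega), ← h1]
    exact mem_insert_of_mem (mem_singleton_self _)

lemma P_pair' (s : ℕ) (x y : Fin (2 * s + 1)) (h : x.1 < y.1) :
    ∃ m i, some x ∈ P s m i ∧ some y ∈ P s m i := by
  have hx := x.2
  have hy := y.2
  by_cases hpar : (y.1 - x.1) % 2 = 0
  · have hi : (y.1 - x.1) / 2 < s + 1 := by omega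
    have hm : x.1 + (y.1 - x.1) / 2 < 2 * s + 1 := by omega
    refine ⟨⟨x.1 + (y.1 - x.1) / 2, hm⟩, ⟨(y.1 - x.1) / 2, hi⟩, ?_⟩
    have h1 : y = pl s ⟨x.1 + (y.1 - x.1) / 2, hm⟩ ⟨(y.1 - x.1) / 2, hi⟩ := by
      apply Fin.ext
      simp only [pl]
      split_ifs <;> omega
    have h2 : x = mi s ⟨x.1 + (y.1 - x.1) / 2, hm⟩ ⟨(y.1 - x.1) / 2, hi⟩ := by
      apply Fin.ext
      simp only [mi]
      split_ifs <;> omega
    unfold P
    rw [if_neg (by show ¬ (y.1 - x.1) / 2 = 0; omega), ← h1, ← h2]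
    exact ⟨mem_insert_of_mem (mem_singleton_self _), mem_insert_self _ _⟩
  · have hi : (2 * s + 1 - (y.1 - x.1)) / 2 < s + 1 := by omega
    obtain ⟨m, hm, hm2⟩ : ∃ m, m < 2 * s + 1 ∧
        ((m + (2 * s + 1 - (y.1 - x.1)) / 2 = x.1) ∨
          (m + (2 * s + 1 - (y.1 - x.1)) / 2 = x.1 + (2 * s + 1))) := by
      rcases Nat.lt_or_ge x.1 ((2 * s + 1 - (y.1 - x.1)) / 2) with h | h
      · exact ⟨x.1 + (2 * s + 1) - (2 * s + 1 - (y.1 - x.1)) / 2, by omega, Or.inr (by omega)⟩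
      · exact ⟨x.1 - (2 * s + 1 - (y.1 - x.1)) / 2, by omega, Or.inl (by omega)⟩
    refine ⟨⟨m, hm⟩, ⟨(2 * s + 1 - (y.1 - x.1)) / 2, hi⟩, ?_⟩
    have h1 : x = pl s ⟨m, hm⟩ ⟨(2 * s + 1 - (y.1 - x.1)) / 2, hi⟩ := by
      apply Fin.ext
      simp only [pl]
      split_ifs <;> omega
    have h2 : y = mi s ⟨m, hm⟩ ⟨(2 * s + 1 - (y.1 - x.1)) / 2, hi⟩ := by
      apply Fin.ext
      simp only [mi]
      split_ifs <;> omega
    unfold P
    rw [if_neg (by show ¬ (2 * s + 1 - (y.1 - x.1)) / 2 = 0; omega), ← h1, ← h2]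
    exact ⟨mem_insert_self _ _, mem_insert_of_mem (mem_singleton_self _)⟩

lemma P_pair (s : ℕ) (x y : Option (Fin (2 * s + 1))) (h : x ≠ y) :
    ∃ m i, x ∈ P s m i ∧ y ∈ P s m i := by
  rcases x with _ | x <;> rcases y with _ | y
  · exact absurd rfl h
  · exact ⟨y, 0, by simp [P]⟩
  · exact ⟨x, 0, by simp [P]⟩
  · have hne : x ≠ y := fun h' => h (by rw [h'])
    have hne' : x.1 ≠ y.1 := fun h' => hne (Fin.ext h')
    rcases Nat.lt_or_gt_of_ne hne' with h1 | h1
    · exact P_pair' s x y h1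
    · obtain ⟨m, i, h2, h3⟩ := P_pair' s y x h1
      exact ⟨m, i, h3, h2⟩

/-! ### doubling -/

lemma cov_double {s m : ℕ} (h : Cov 4 (Option (Fin (2 * s + 1))) m) :
    Cov 4 (Option (Fin (2 * s + 1)) × Bool) (2 * m + (2 * s + 1) * (s + 1) ^ 2) := by
  classical
  obtain ⟨ι, _, f, hf, hcov, hm⟩ := h
  set F : (ι × Bool) ⊕ (Fin (2 * s + 1) × Fin (s + 1) × Fin (s + 1)) →
      Finset (Option (Fin (2 * s + 1)) × Bool) :=
    Sum.elim (fun p => (f p.1).image (fun x => (x, p.2)))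
      (fun p => (P s p.1 p.2.1).image (fun x => (x, true)) ∪
        (P s p.1 p.2.2).image (fun x => (x, false))) with hF
  have hsame : ∀ (x y z : Option (Fin (2 * s + 1))) (b : Bool), x ≠ y → x ≠ z → y ≠ z →
      ∃ i, (x, b) ∈ F i ∧ (y, b) ∈ F i ∧ (z, b) ∈ F i := by
    intro x y z b h1 h2 h3
    obtain ⟨i, hi⟩ := hcov {x, y, z} (by rw [card_eq_three.2 ⟨x, y, z, h1, h2, h3, rfl⟩])
    refine ⟨Sum.inl (i, b), ?_, ?_, ?_⟩
    · exact mem_image.2 ⟨x, hi (by simp), rfl⟩
    · exact mem_image.2 ⟨y, hi (by simp), rfl⟩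
    · exact mem_image.2 ⟨z, hi (by simp), rfl⟩
  have hcross : ∀ (x y z : Option (Fin (2 * s + 1))) (b : Bool), x ≠ y →
      ∃ i, (x, b) ∈ F i ∧ (y, b) ∈ F i ∧ (z, !b) ∈ F i := by
    intro x y z b h1
    obtain ⟨m, i, h2, h3⟩ := P_pair s x y h1
    obtain ⟨j, h4⟩ := P_point s z m
    cases b
    · refine ⟨Sum.inr (m, j, i), mem_union_right _ ?_, mem_union_right _ ?_,
        mem_union_left _ ?_⟩
      · exact mem_image.2 ⟨x, h2, rfl⟩
      · exact mem_image.2 ⟨y, h3, rfl⟩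
      · exact mem_image.2 ⟨z, h4, rfl⟩
    · refine ⟨Sum.inr (m, i, j), mem_union_left _ ?_, mem_union_left _ ?_,
        mem_union_right _ ?_⟩
      · exact mem_image.2 ⟨x, h2, rfl⟩
      · exact mem_image.2 ⟨y, h3, rfl⟩
      · exact mem_image.2 ⟨z, h4, rfl⟩
  refine ⟨_, inferInstance, F, ?_, ?_, ?_⟩
  · rintro (p | p)
    · exact card_image_le.trans (hf p.1)
    · refine (card_union_le _ _).trans ?_
      have h1 := (card_image_le (s := P s p.1 p.2.1) (f := fun x => (x, true))).trans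
        (P_card s p.1 p.2.1)
      have h2 := (card_image_le (s := P s p.1 p.2.2) (f := fun x => (x, false))).trans
        (P_card s p.1 p.2.2)
      omega
  · intro S hS
    obtain ⟨⟨x, a⟩, ⟨y, b⟩, ⟨z, c⟩, hxy, hxz, hyz, rfl⟩ :=
      card_eq_three.1 (show S.card = 3 by omega)
    have key : ∃ i, (x, a) ∈ F i ∧ (y, b) ∈ F i ∧ (z, c) ∈ F i := by
      by_cases hab : a = b
      · subst hab
        have h1 : x ≠ y := fun h => hxy (by rw [h])
        by_cases hac : a = c
        · subst hac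
          exact hsame x y z a h1 (fun h => hxz (by rw [h])) (fun h => hyz (by rw [h]))
        · have : c = !a := by cases a <;> cases c <;> simp_all
          subst this
          exact hcross x y z a h1
      · have hb : b = !a := by cases a <;> cases b <;> simp_all
        subst hb
        by_cases hac : a = c
        · subst hac
          obtain ⟨i, h1, h2, h3⟩ := hcross x z y a (fun h => hxz (by rw [h]))
          exact ⟨i, h1, h3, h2⟩
        · have : c = !a := by cases a <;> cases c <;> simp_all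
          subst this
          obtain ⟨i, h1, h2, h3⟩ := hcross y z x (!a) (fun h => hyz (by rw [h]))
          rw [Bool.not_not] at h3
          exact ⟨i, h3, h1, h2⟩
    obtain ⟨i, h1, h2, h3⟩ := key
    refine ⟨i, fun w hw => ?_⟩
    rw [mem_insert, mem_insert, mem_singleton] at hw
    rcases hw with rfl | rfl | rfl
    · exact h1
    · exact h2
    · exact h3
  · simp only [Fintype.card_sum, Fintype.card_prod, Fintype.card_fin, Fintype.card_bool]
    have : (2 * s + 1) * ((s + 1) * (s + 1)) = (2 * s + 1) * (s + 1) ^ 2 := by ring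
    omega

/-- the allowed excess -/
def eps (v : ℕ) : ℕ := if v % 3 = 0 then 4 else 0

/-- an optimal covering of the triples of a `v`-set by quadruples, `v = 2 s + 2` -/
def Good (s : ℕ) : Prop :=
  ∃ m, Cov 4 (Option (Fin (2 * s + 1))) m ∧
    24 * m ≤ (2 * s + 2) * ((2 * s + 1) * (2 * s) + eps (2 * s + 2))

lemma Good.double {s : ℕ} (h : Good s) : Good (2 * s + 1) := by
  obtain ⟨m, h1, h2⟩ := h
  have e : Option (Fin (2 * s + 1)) × Bool ≃ Option (Fin (2 * (2 * s + 1) + 1)) :=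
    Fintype.equivOfCardEq (by simp; omega)
  refine ⟨_, (cov_double h1).congr e, ?_⟩
  have h3 : eps (2 * (2 * s + 1) + 2) = eps (2 * s + 2) := by
    unfold eps
    have : (2 * (2 * s + 1) + 2) % 3 = 0 ↔ (2 * s + 2) % 3 = 0 := by omega
    simp only [this]
  rw [h3]
  generalize eps (2 * s + 2) = E at h2 ⊢
  nlinarith [h2]

lemma good_pow {s : ℕ} (h : Good s) (j : ℕ) : ∃ s', 2 * s' + 2 = (2 * s + 2) * 2 ^ j ∧ Good s' := by
  induction j with
  | zero => exact ⟨s, by simp, h⟩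
  | succ j ih =>
    obtain ⟨s', h1, h2⟩ := ih
    refine ⟨2 * s' + 1, ?_, h2.double⟩
    rw [pow_succ, ← mul_assoc]
    omega

/-! ### small cases -/

lemma cov4_of_list (v : ℕ) (L : List ℕ)
    (h1 : ∀ b ∈ L, ((univ : Finset (Fin v)).filter (fun x => b.testBit x.1)).card ≤ 4)
    (h2 : ∀ a b c : Fin v, a < b → b < c →
      ∃ m ∈ L, m.testBit a.1 ∧ m.testBit b.1 ∧ m.testBit c.1) :
    Cov 4 (Fin v) L.length := by
  classical
  refine ⟨Fin L.length, inferInstance,
    fun i => univ.filter (fun x => (L.get i).testBit x.1), fun i => h1 _ (L.get_mem i), ?_,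
    by simp⟩
  intro s hs
  obtain ⟨a, b, c, hab, hac, hbc, rfl⟩ := card_eq_three.1 (show s.card = 3 by omega)
  have key : ∃ m ∈ L, m.testBit a.1 ∧ m.testBit b.1 ∧ m.testBit c.1 := by
    rcases lt_or_gt_of_ne hab with h | h <;> rcases lt_or_gt_of_ne hac with h' | h' <;>
      rcases lt_or_gt_of_ne hbc with h'' | h''
    · exact h2 a b c h h''
    · obtain ⟨m, hm, p, q, r⟩ := h2 a c b h' h''
      exact ⟨m, hm, p, r, q⟩
    · exact absurd (h.trans h'') (not_lt.2 h'.le)
    · obtain ⟨m, hm, p, q, r⟩ := h2 c a b h' h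
      exact ⟨m, hm, q, r, p⟩
    · obtain ⟨m, hm, p, q, r⟩ := h2 b a c h h'
      exact ⟨m, hm, q, p, r⟩
    · exact absurd (h''.trans h) (not_lt.2 h'.le)
    · obtain ⟨m, hm, p, q, r⟩ := h2 b c a h'' h'
      exact ⟨m, hm, r, p, q⟩
    · obtain ⟨m, hm, p, q, r⟩ := h2 c b a h'' h
      exact ⟨m, hm, r, q, p⟩
  obtain ⟨m, hm, p, q, r⟩ := key
  obtain ⟨i, hi⟩ := List.get_of_mem hm
  refine ⟨i, fun x hx => ?_⟩
  rw [mem_insert, mem_insert, mem_singleton] at hx
  rw [mem_filter, hi]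
  rcases hx with rfl | rfl | rfl
  · exact ⟨mem_univ _, p⟩
  · exact ⟨mem_univ _, q⟩
  · exact ⟨mem_univ _, r⟩

/-- six quadruples on six points -/
def L6 : List ℕ :=
  [15, 23, 39, 57, 58, 60]

/-- a Steiner quadruple system on ten points -/
def L10 : List ℕ :=
  [27, 54, 71, 108, 113, 142, 149, 169, 216, 226, 284, 293, 298, 329, 338, 387, 432, 452, 525,
   547, 568, 586, 596, 658, 676, 705, 774, 785, 864, 904]

/-- a Steiner quadruple system on fourteen points -/
def L14 : List ℕ :=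
  [23, 46, 57, 75, 92, 101, 114, 163, 326, 396, 432, 449, 525, 650, 676, 720, 771, 792, 864,
   1050, 1169, 1192, 1220, 1300, 1313, 1352, 1410, 1542, 1584, 1601, 2100, 2181, 2194, 2248,
   2313, 2338, 2384, 2577, 2600, 2626, 2820, 3075, 3084, 3168, 3712, 4200, 4233, 4244, 4290,
   4362, 4369, 4388, 4626, 4641, 4676, 4992, 5125, 5154, 5200, 5640, 6150, 6168, 6209, 6304,
   7424, 8273, 8326, 8344, 8416, 8453, 8466, 8488, 8724, 8738, 8776, 8833, 9225, 9252, 9282,
   9984, 10250, 10273, 10308, 10624, 11280, 12291, 12300, 12336, 12608, 13440, 14848]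

lemma good_0 : Good 0 := by
  refine ⟨0, ⟨Empty, inferInstance, Empty.elim, fun i => i.elim, fun s hs => ?_, by simp⟩,
    by simp⟩
  exfalso
  have := card_le_univ s
  have h2 : Fintype.card (Option (Fin (2 * 0 + 1))) = 2 := by simp
  omega

lemma good_2 : Good 2 := by
  refine ⟨6, ?_, by decide⟩
  exact (cov4_of_list 6 L6 (by decide +kernel) (by decide +kernel)).congr
    (Fintype.equivOfCardEq (by simp))

lemma good_4 : Good 4 := by
  refine ⟨30, ?_, by decide⟩
  exact (cov4_of_list 10 L10 (by decide +kernel) (by decide +kernel)).congr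
    (Fintype.equivOfCardEq (by simp))

lemma good_6 : Good 6 := by
  refine ⟨91, ?_, by decide⟩
  exact (cov4_of_list 14 L14 (by decide +kernel) (by decide +kernel)).congr
    (Fintype.equivOfCardEq (by simp))

/-! ### the fourth diagonal -/

lemma choose_four (a : ℕ) : 24 * (a + 4).choose 4 = (a + 4) * ((a + 3) * ((a + 2) * (a + 1))) := by
  have h1 := Nat.add_one_mul_choose_eq (a + 3) 3
  have h2 := six_choose a
  calc 24 * (a + 4).choose 4 = 6 * ((a + 4).choose 4 * 4) := by ring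
    _ = 6 * ((a + 4) * (a + 3).choose 3) := by rw [← h1]
    _ = (a + 4) * (6 * (a + 3).choose 3) := by ring
    _ = _ := by rw [h2]

/-- the Schönheim bound on the third diagonal -/
lemma schon_two (hk : Even k) : 6 * schon k 2 + eps (k + 4) ≤ (k + 3) * ((k + 2) * k) := by
  have h1 : 2 * schon k 1 ≤ (k + 2) * k := Nat.mul_div_le _ _
  have h2 : 3 * schon k 2 ≤ (k + 3) * schon k 1 := Nat.mul_div_le _ _
  have h3 : 6 * schon k 2 ≤ (k + 3) * ((k + 2) * k) := by
    calc 6 * schon k 2 = 2 * (3 * schon k 2) := by ring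
      _ ≤ 2 * ((k + 3) * schon k 1) := Nat.mul_le_mul_left _ h2
      _ = (k + 3) * (2 * schon k 1) := by ring
      _ ≤ _ := Nat.mul_le_mul_left _ h1
  unfold eps
  split_ifs with h
  · obtain ⟨t, ht⟩ : ∃ t, k = 6 * t + 2 := by
      obtain ⟨u, hu⟩ := hk
      exact ⟨k / 6, by omega⟩
    subst ht
    have h4 : (6 * t + 2 + 3) * ((6 * t + 2 + 2) * (6 * t + 2)) =
        6 * (36 * t ^ 3 + 66 * t ^ 2 + 38 * t + 6) + 4 := by ring
    omega
  · simpa using h3

theorem good_schon (hk : Even k) {s : ℕ} (hs : 2 * s + 2 = k + 4) (h : Good s) :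
    turan (k + 1 + 3) k = schon k 3 := by
  refine le_antisymm (turan_le_schon k 3) ?_
  obtain ⟨m, h1, h2⟩ := h
  have h3 := h1.le_turan (k := k) (r := 4) (by simp; omega) (by norm_num)
  rw [Nat.choose_symm_of_eq_add (show k + 4 = k + 4 from rfl)] at h3
  have h4 := choose_four k
  have h5 := schon_two hk
  have h6 : 4 * schon k 3 ≤ (k + 4) * schon k 2 := Nat.mul_div_le _ _
  rw [show 2 * s + 2 = k + 4 from hs, show 2 * s + 1 = k + 3 by omega,
    show 2 * s = k + 2 by omega] at h2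
  show schon k 3 ≤ turan (k + 4) k
  have h7 : 24 * schon k 3 + (k + 4) * eps (k + 4) ≤ (k + 4) * ((k + 3) * ((k + 2) * k)) := by
    calc 24 * schon k 3 + (k + 4) * eps (k + 4)
        = 6 * (4 * schon k 3) + (k + 4) * eps (k + 4) := by ring
      _ ≤ 6 * ((k + 4) * schon k 2) + (k + 4) * eps (k + 4) := by omega
      _ = (k + 4) * (6 * schon k 2 + eps (k + 4)) := by ring
      _ ≤ _ := Nat.mul_le_mul_left _ h5
  have h8 : (k + 4) * ((k + 3) * ((k + 2) * (k + 1))) =
      (k + 4) * ((k + 3) * ((k + 2) * k)) + (k + 4) * ((k + 3) * (k + 2)) := by ring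
  have h9 : (k + 4) * ((k + 3) * (k + 2) + eps (k + 4)) =
      (k + 4) * ((k + 3) * (k + 2)) + (k + 4) * eps (k + 4) := by ring
  omega

end Pool.Agent.Helper32.TC
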