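import Pool.Agent.Helper32.TC.Direct

/-!
# The Schönheim bound is only attained by cocycles
-/

open Finset

namespace Pool.Agent.Helper32.TC

variable {n k : ℕ}

/-- The iterated bound of Schönheim (and of Katona, Nemetz and Simonovits) for
`T(k + 1 + j, k, k + 1)`: it is `k` for `j = 0`, and then
`L(n) = ⌊n L(n - 1) / (n - k)⌋`. -/
def schon (k : ℕ) : ℕ → ℕ
  | 0 => k
  | j + 1 => (k + 1 + (j + 1)) * schon k j / (j + 2)

lemma turan_le_schon (k j : ℕ) : turan (k + 1 + j) k ≤ schon k j := by
  induction j with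
  | zero =>
    obtain ⟨H, hH, he⟩ := exists_turan (k + 1) k
    have h1 := trivial_bound le_rfl hH
    rw [he, Nat.choose_succ_self_right, mul_comm k (k + 1)] at h1
    exact Nat.le_of_mul_le_mul_left h1 (by omega)
  | succ j ih =>
    have h1 := averaging (k + 1 + j) k
    rw [show k + 1 + j + 1 - k = j + 2 by omega] at h1
    show turan (k + 1 + j + 1) k ≤ (k + 1 + (j + 1)) * schon k j / (j + 2)
    rw [Nat.le_div_iff_mul_le (by omega), mul_comm]
    exact h1.trans (Nat.mul_le_mul_left _ ih)

lemma schon_down {j : ℕ} (h : turan (k + 1 + (j + 1)) k = schon k (j + 1)) :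
    turan (k + 1 + j) k = schon k j := by
  refine le_antisymm (turan_le_schon k j) ?_
  by_contra hcon
  push Not at hcon
  have h1 := averaging (k + 1 + j) k
  rw [show k + 1 + j + 1 - k = j + 2 by omega] at h1
  have h2 : (k + 1 + j + 1) * (turan (k + 1 + j) k + 1) ≤ (k + 1 + j + 1) * schon k j :=
    Nat.mul_le_mul_left _ hcon
  have h3 : (k + 1 + (j + 1)) * schon k j < (j + 2) * (schon k (j + 1) + 1) := by
    show (k + 1 + (j + 1)) * schon k j <
      (j + 2) * ((k + 1 + (j + 1)) * schon k j / (j + 2) + 1)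
    exact Nat.lt_mul_div_succ _ (by omega)
  rw [← h, Nat.mul_add, mul_one] at h3
  rw [Nat.mul_add, mul_one] at h2
  have h4 : turan (k + 1 + (j + 1)) k = turan (k + 1 + j + 1) k := rfl
  rw [h4] at h3
  have h5 : (k + 1 + (j + 1)) * schon k j = (k + 1 + j + 1) * schon k j := rfl
  rw [h5] at h3
  omega

lemma schon_down' {i j : ℕ} (hij : i ≤ j) (h : turan (k + 1 + j) k = schon k j) :
    turan (k + 1 + i) k = schon k i := by
  induction j with
  | zero => rw [Nat.le_zero.1 hij]; exact h
  | succ j ih =>
    rcases Nat.lt_or_ge i (j + 1) with h1 | h1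
    · exact ih (by omega) (schon_down h)
    · rw [le_antisymm hij h1]; exact h

theorem ext_of_schon (hk : Even k) : ∀ j, turan (k + 1 + j) k = schon k j →
    Ext (k + 1 + j) k := by
  intro j
  induction j with
  | zero => intro _; exact tight_one.ext hk
  | succ j ih =>
    intro h
    have h1 := schon_down h
    refine step (n := k + 1 + j) (by omega) (ih h1) ?_
    rw [show k + 1 + j + 1 - k = j + 2 by omega]
    have h4 : turan (k + 1 + (j + 1)) k = turan (k + 1 + j + 1) k := rfl
    rw [← h4, h, h1]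
    exact Nat.lt_mul_div_succ _ (by omega)

lemma ext_small (hk : Even k) (hn : n ≤ k) : Ext n k := (tight_small hn).ext hk

/-- the Schönheim bound at `n` gives everything up to `n` -/
theorem ext_below (hk : Even k) {j : ℕ} (h : turan (k + 1 + j) k = schon k j) {m : ℕ}
    (hm : m ≤ k + 1 + j) : Ext m k := by
  rcases Nat.lt_or_ge k m with h1 | h1
  · obtain ⟨i, rfl⟩ : ∃ i, m = k + 1 + i := ⟨m - (k + 1), by omega⟩
    exact ext_of_schon hk i (schon_down' (by omega) h)
  · exact ext_small hk h1

lemma schon_le_trivial (k j : ℕ) : (k + 1) * schon k j ≤ k * (k + 1 + j).choose k := by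
  induction j with
  | zero =>
    show (k + 1) * k ≤ k * (k + 1 + 0).choose k
    rw [add_zero, Nat.choose_succ_self_right, mul_comm]
  | succ j ih =>
    have h1 : (j + 2) * schon k (j + 1) ≤ (k + 1 + (j + 1)) * schon k j := by
      show (j + 2) * ((k + 1 + (j + 1)) * schon k j / (j + 2)) ≤ _
      exact Nat.mul_div_le _ _
    have h2 := Nat.choose_mul_succ_eq (k + 1 + j) k
    rw [show k + 1 + j + 1 - k = j + 2 by omega] at h2
    have h3 : (j + 2) * ((k + 1) * schon k (j + 1)) ≤
        (j + 2) * (k * (k + 1 + j + 1).choose k) := by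
      calc (j + 2) * ((k + 1) * schon k (j + 1)) = (k + 1) * ((j + 2) * schon k (j + 1)) := by
            ring
        _ ≤ (k + 1) * ((k + 1 + (j + 1)) * schon k j) := Nat.mul_le_mul_left _ h1
        _ = (k + 1 + j + 1) * ((k + 1) * schon k j) := by ring
        _ ≤ (k + 1 + j + 1) * (k * (k + 1 + j).choose k) := Nat.mul_le_mul_left _ ih
        _ = k * ((k + 1 + j).choose k * (k + 1 + j + 1)) := by ring
        _ = k * ((k + 1 + j + 1).choose k * (j + 2)) := by rw [h2]
        _ = _ := by ring
    exact Nat.le_of_mul_le_mul_left h3 (by omega)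

lemma Tight.schon {j : ℕ} (h : Tight (k + 1 + j) k) : turan (k + 1 + j) k = schon k j := by
  refine le_antisymm (turan_le_schon k j) ?_
  have h1 := schon_le_trivial k j
  unfold Tight at h
  have h2 := h1.trans_lt h
  have h3 := Nat.lt_of_mul_lt_mul_left h2
  omega

/-! ### Steiner systems -/

lemma tight_of_steiner {V : Type} [Fintype V] [DecidableEq V] {r : ℕ}
    (hV : Fintype.card V = k + (r + 1)) (T : Finset (Finset V)) (hT : ∀ t ∈ T, t.card = r + 1)
    (hcov : ∀ s : Finset V, s.card = r → ∃! t, t ∈ T ∧ s ⊆ t) : Tight (k + (r + 1)) k := by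
  refine tight_of_cov (m := T.card) (r := r + 1) hV (by omega) ?_ ?_
  · refine ⟨T, inferInstance, fun t => t.1, fun t => (hT t.1 t.2).le, fun s hs => ?_,
      by rw [Fintype.card_coe]⟩
    obtain ⟨t, ⟨ht1, ht2⟩, -⟩ := hcov s (by omega)
    exact ⟨⟨t, ht1⟩, ht2⟩
  · have h1 : (T.biUnion (powersetCard r)).card = T.card * (r + 1) := by
      rw [card_biUnion]
      · rw [sum_congr rfl (g := fun _ => r + 1), sum_const, smul_eq_mul]
        intro t ht
        rw [card_powersetCard, hT t ht, Nat.choose_succ_self_right]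
      · intro t ht t' ht' hne
        rw [Function.onFun, disjoint_left]
        intro s hs hs'
        obtain ⟨h2, h3⟩ := mem_powersetCard.1 hs
        obtain ⟨h4, h5⟩ := mem_powersetCard.1 hs'
        exact hne ((hcov s h3).unique ⟨ht, h2⟩ ⟨ht', h4⟩)
    have h2 : (T.biUnion (powersetCard r)).card ≤ (k + (r + 1)).choose r := by
      rw [← hV, ← card_univ, ← card_powersetCard]
      refine card_le_card fun s hs => ?_
      obtain ⟨t, -, h3⟩ := mem_biUnion.1 hs
      exact mem_powersetCard.2 ⟨subset_univ _, (mem_powersetCard.1 h3).2⟩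
    rw [h1] at h2
    have h3 : (k + (r + 1)).choose r = (k + (r + 1)).choose (k + 1) :=
      Nat.choose_symm_of_eq_add (by omega)
    have h4 := Nat.choose_succ_right_eq (k + (r + 1)) k
    rw [show k + (r + 1) - k = r + 1 by omega] at h4
    have h5 : (r + 1) * ((k + 1) * T.card) ≤ (r + 1) * (k + (r + 1)).choose k := by
      calc (r + 1) * ((k + 1) * T.card) = (k + 1) * (T.card * (r + 1)) := by ring
        _ ≤ (k + 1) * (k + (r + 1)).choose (k + 1) := Nat.mul_le_mul_left _ (by rw [← h3]; exact h2)
        _ = (r + 1) * (k + (r + 1)).choose k := by rw [mul_comm, h4, mul_comm]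
    have h6 := Nat.le_of_mul_le_mul_left h5 (by omega)
    omega

end Pool.Agent.Helper32.TC
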