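import Pool.Agent.Helper32.TC.Basic

/-!
# The averaging step: rounding down is attained, so extremal hypergraphs stay cocycles
-/

open Finset

namespace Pool.Agent.Helper32.TC

variable {n k : ℕ}

/-- the number of `(k+1)`-sets between `e` and `U` -/
lemma card_between {e U : Finset (Fin n)} (he : e.card = k) (heU : e ⊆ U) :
    ((U.powersetCard (k + 1)).filter (fun S => e ⊆ S)).card = U.card - k := by
  classical
  have h : (U.powersetCard (k + 1)).filter (fun S => e ⊆ S)
      = (U \ e).image (fun x => insert x e) := by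
    ext S
    rw [mem_filter, mem_powersetCard, mem_image]
    constructor
    · rintro ⟨⟨hSU, hS⟩, heS⟩
      have h1 : (S \ e).card = 1 := by
        rw [card_sdiff_of_subset heS, hS, he]; omega
      obtain ⟨x, hx⟩ := card_eq_one.1 h1
      have hxS : x ∈ S \ e := by rw [hx]; exact mem_singleton_self x
      refine ⟨x, mem_sdiff.2 ⟨hSU (mem_sdiff.1 hxS).1, (mem_sdiff.1 hxS).2⟩, ?_⟩
      rw [insert_eq, ← hx, union_comm]
      exact union_sdiff_of_subset heS
    · rintro ⟨x, hx, rfl⟩
      have hx' := mem_sdiff.1 hx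
      refine ⟨⟨insert_subset hx'.1 heU, ?_⟩, subset_insert _ _⟩
      rw [card_insert_of_notMem hx'.2, he]
  rw [h, card_image_of_injOn, card_sdiff_of_subset heU, he]
  intro x hx y hy hxy
  have hx' : x ∉ e := (mem_sdiff.1 hx).2
  have h1 : x ∈ insert y e := by
    have : x ∈ insert x e := mem_insert_self x e
    rwa [show (insert x e : Finset (Fin n)) = insert y e from hxy] at this
  rcases mem_insert.1 h1 with h2 | h2
  · exact h2
  · exact absurd h2 hx'

/-- double counting inside a set `U` -/
lemma sum_edges_inside {H : Finset (Finset (Fin n))} (hH : ∀ e ∈ H, e.card = k)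
    (U : Finset (Fin n)) :
    ∑ S ∈ U.powersetCard (k + 1), (H.filter (fun e => e ⊆ S)).card
      = (U.card - k) * (H.filter (fun e => e ⊆ U)).card := by
  classical
  simp_rw [card_filter]
  rw [sum_comm]
  have h : ∀ e ∈ H, ∑ S ∈ U.powersetCard (k + 1), (if e ⊆ S then 1 else 0)
      = if e ⊆ U then U.card - k else 0 := by
    intro e he
    rw [← card_filter]
    by_cases hv : e ⊆ U
    · rw [if_pos hv]
      exact card_between (hH e he) hv
    · rw [if_neg hv, card_eq_zero, filter_eq_empty_iff]
      intro S hS h1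
      exact hv (h1.trans (mem_powersetCard.1 hS).1)
  rw [sum_congr rfl h, ← sum_filter, sum_const, smul_eq_mul, mul_comm]
  congr 1
  rw [← card_filter]

/-- double counting over the vertices -/
lemma sum_vertices {H : Finset (Finset (Fin n))} (hH : ∀ e ∈ H, e.card = k) :
    ∑ v : Fin n, (H.filter (fun e => v ∉ e)).card = (n - k) * H.card := by
  classical
  simp_rw [card_filter]
  rw [sum_comm]
  rw [sum_congr rfl (g := fun _ => n - k)]
  · rw [sum_const, smul_eq_mul, mul_comm]
  · intro e he
    rw [← card_filter]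
    have : (univ.filter (fun v : Fin n => v ∉ e)) = eᶜ := by
      ext v; simp
    rw [this, card_compl, Fintype.card_fin, hH e he]

/-! ### deleting a vertex -/

/-- delete the vertex `v` and renumber -/
def del (v : Fin (n + 1)) (H : Finset (Finset (Fin (n + 1)))) : Finset (Finset (Fin n)) :=
  univ.filter (fun e => e.map (Fin.succAboveEmb v) ∈ H)

lemma mem_del {v : Fin (n + 1)} {H : Finset (Finset (Fin (n + 1)))} {e : Finset (Fin n)} :
    e ∈ del v H ↔ e.map (Fin.succAboveEmb v) ∈ H := by
  simp [del]

lemma exists_map {v : Fin (n + 1)} {S : Finset (Fin (n + 1))} (hv : v ∉ S) :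
    ∃ S' : Finset (Fin n), S'.map (Fin.succAboveEmb v) = S := by
  refine ⟨univ.filter (fun x => v.succAbove x ∈ S), ?_⟩
  ext y
  simp only [mem_map, mem_filter, mem_univ, true_and, Fin.succAboveEmb_apply]
  constructor
  · rintro ⟨x, hx, rfl⟩; exact hx
  · intro hy
    have hne : y ≠ v := fun h => hv (h ▸ hy)
    obtain ⟨x, hx⟩ := Fin.exists_succAbove_eq hne
    exact ⟨x, by rw [hx]; exact hy, hx⟩

lemma notMem_map {v : Fin (n + 1)} (S' : Finset (Fin n)) : v ∉ S'.map (Fin.succAboveEmb v) := by
  intro h
  obtain ⟨x, -, hx⟩ := mem_map.1 h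
  exact Fin.succAbove_ne v x hx

lemma del_free {v : Fin (n + 1)} {H : Finset (Finset (Fin (n + 1)))} (h : Free k H) :
    Free k (del v H) := by
  refine ⟨fun e he => ?_, fun S hS hsub => ?_⟩
  · have := h.1 _ (mem_del.1 he)
    rwa [card_map] at this
  · refine h.2 (S.map (Fin.succAboveEmb v)) (by rw [card_map, hS]) ?_
    intro e he
    obtain ⟨he1, he2⟩ := mem_powersetCard.1 he
    have hv : v ∉ e := fun h => notMem_map S (he1 h)
    obtain ⟨e', rfl⟩ := exists_map hv
    rw [map_subset_map] at he1
    rw [card_map] at he2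
    exact mem_del.1 (hsub (mem_powersetCard.2 ⟨he1, he2⟩))

lemma card_del (v : Fin (n + 1)) (H : Finset (Finset (Fin (n + 1)))) :
    (del v H).card = (H.filter (fun e => v ∉ e)).card := by
  classical
  refine card_nbij (fun e => e.map (Fin.succAboveEmb v)) ?_ ?_ ?_
  · intro e he
    exact mem_filter.2 ⟨mem_del.1 he, notMem_map e⟩
  · intro e he e' he' h
    exact map_injective _ h
  · intro e he
    obtain ⟨he1, he2⟩ := mem_filter.1 (mem_coe.1 he)
    obtain ⟨e', rfl⟩ := exists_map he2
    exact ⟨e', mem_coe.2 (mem_del.2 he1), rfl⟩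

lemma card_del_inside (v : Fin (n + 1)) (H : Finset (Finset (Fin (n + 1))))
    (S : Finset (Fin n)) :
    ((del v H).filter (fun e => e ⊆ S)).card
      = (H.filter (fun e => e ⊆ S.map (Fin.succAboveEmb v))).card := by
  classical
  refine card_nbij (fun e => e.map (Fin.succAboveEmb v)) ?_ ?_ ?_
  · intro e he
    obtain ⟨he1, he2⟩ := mem_filter.1 he
    exact mem_filter.2 ⟨mem_del.1 he1, map_subset_map.2 he2⟩
  · intro e he e' he' h
    exact map_injective _ h
  · intro e he
    obtain ⟨he1, he2⟩ := mem_filter.1 (mem_coe.1 he)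
    have hv : v ∉ e := fun h => notMem_map S (he2 h)
    obtain ⟨e', rfl⟩ := exists_map hv
    exact ⟨e', mem_coe.2 (mem_filter.2 ⟨mem_del.2 he1, map_subset_map.1 he2⟩), rfl⟩

/-- Katona, Nemetz and Simonovits: averaging over the vertices. -/
theorem averaging (n k : ℕ) : (n + 1 - k) * turan (n + 1) k ≤ (n + 1) * turan n k := by
  classical
  obtain ⟨H, hH, he⟩ := exists_turan (n + 1) k
  rw [← he, ← sum_vertices hH.1]
  calc ∑ v : Fin (n + 1), (H.filter (fun e => v ∉ e)).card
      ≤ ∑ _v : Fin (n + 1), turan n k := by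
        refine sum_le_sum fun v _ => ?_
        rw [← card_del]
        exact le_turan (del_free hH)
    _ = (n + 1) * turan n k := by simp

/-- Every hypergraph on `n` vertices of the largest size is a cocycle. -/
def Ext (n k : ℕ) : Prop :=
  ∀ H : Finset (Finset (Fin n)), Free k H → H.card = turan n k → Coc k H

/-- The averaging step. -/
theorem step (hn : k + 1 ≤ n) (hE : Ext n k)
    (hT : (n + 1) * turan n k < (n + 1 - k) * (turan (n + 1) k + 1)) : Ext (n + 1) k := by
  classical
  intro H hH hc
  refine ⟨hH.1, ?_⟩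
  by_contra hcon
  push Not at hcon
  -- the bad vertices
  set B : Finset (Fin (n + 1)) :=
    univ.filter (fun v => (H.filter (fun e => v ∉ e)).card < turan n k) with hB
  have hle : ∀ v : Fin (n + 1), (H.filter (fun e => v ∉ e)).card ≤ turan n k := by
    intro v
    rw [← card_del]
    exact le_turan (del_free hH)
  -- few bad vertices
  have hBc : B.card < n + 1 - k := by
    have h1 : ∑ v : Fin (n + 1), ((H.filter (fun e => v ∉ e)).card + if v ∈ B then 1 else 0)
        ≤ ∑ _v : Fin (n + 1), turan n k := by
      refine sum_le_sum fun v _ => ?_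
      by_cases hv : v ∈ B
      · rw [if_pos hv]
        exact (mem_filter.1 hv).2
      · rw [if_neg hv]; exact hle v
    rw [sum_add_distrib, sum_vertices hH.1, hc] at h1
    have h2 : ∑ v : Fin (n + 1), (if v ∈ B then 1 else 0) = B.card := by simp
    have h3 : ∑ _v : Fin (n + 1), turan n k = (n + 1) * turan n k := by simp
    rw [h2, h3] at h1
    rw [Nat.mul_add, mul_one] at hT
    omega
  -- an odd set has all other vertices bad
  have key : ∀ S : Finset (Fin (n + 1)), S.card = k + 1 →
      ¬ Even ((H.filter (fun e => e ⊆ S)).card) → Sᶜ = B := by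
    intro S hS hodd
    have hsub : Sᶜ ⊆ B := by
      intro v hv
      have hvS : v ∉ S := mem_compl.1 hv
      rw [hB, mem_filter]
      refine ⟨mem_univ _, lt_of_le_of_ne (hle v) ?_⟩
      intro heq
      obtain ⟨S', rfl⟩ := exists_map hvS
      have h1 : Coc k (del v H) := hE _ (del_free hH) (by rw [card_del, heq])
      apply hodd
      rw [← card_del_inside]
      exact h1.2 S' (by rwa [card_map] at hS)
    refine eq_of_subset_of_card_le hsub ?_
    rw [card_compl, Fintype.card_fin, hS]
    omega
  obtain ⟨S, hS, hodd⟩ := hcon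
  have hSB := key S hS hodd
  have hne : (Sᶜ).Nonempty := by
    rw [← card_pos, card_compl, Fintype.card_fin, hS]
    omega
  obtain ⟨x, hx⟩ := hne
  have hxS : x ∉ S := mem_compl.1 hx
  have hU : (insert x S).card = k + 2 := by rw [card_insert_of_notMem hxS, hS]
  have hsum := sum_edges_inside hH.1 (insert x S)
  rw [hU, show k + 2 - k = 2 by omega] at hsum
  have hmem : S ∈ (insert x S).powersetCard (k + 1) :=
    mem_powersetCard.2 ⟨subset_insert _ _, hS⟩
  rw [← add_sum_erase _ _ hmem] at hsum
  have hodd2 : ¬ Even (∑ S' ∈ ((insert x S).powersetCard (k + 1)).erase S,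
      (H.filter (fun e => e ⊆ S')).card) := by
    intro h
    have h1 : Even ((H.filter (fun e => e ⊆ S)).card) := by
      have h2 : Even ((H.filter (fun e => e ⊆ S)).card +
        ∑ S' ∈ ((insert x S).powersetCard (k + 1)).erase S,
          (H.filter (fun e => e ⊆ S')).card) := by
        rw [hsum]; exact even_two_mul _
      exact (Nat.even_add.1 h2).2 h
    exact hodd h1
  obtain ⟨S', hS', hodd'⟩ : ∃ S' ∈ ((insert x S).powersetCard (k + 1)).erase S,
      ¬ Even ((H.filter (fun e => e ⊆ S')).card) := by
    by_contra hall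
    push Not at hall
    exact hodd2 (Finset.even_sum _ hall)
  obtain ⟨h1, h2⟩ := mem_erase.1 hS'
  have hS'B := key S' (mem_powersetCard.1 h2).2 hodd'
  exact h1 (compl_injective (hS'B.trans hSB.symm))

end Pool.Agent.Helper32.TC
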