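import Pool.Agent.Helper32.TC.Cover

/-!
# Optimal coverings of pairs by triples on an odd number of points
-/

open Finset

namespace Pool.Agent.Helper32.TC

/-! ### commutative operations on `Fin (2t+1)` and `Fin (2t)` -/

/-- half of the sum, modulo `2 t + 1` -/
def qo (t : ℕ) (x y : Fin (2 * t + 1)) : Fin (2 * t + 1) :=
  ⟨if x.1 + y.1 < 2 * t + 1 then
      (if (x.1 + y.1) % 2 = 0 then (x.1 + y.1) / 2 else (x.1 + y.1 + (2 * t + 1)) / 2)
    else (if (x.1 + y.1 - (2 * t + 1)) % 2 = 0 then (x.1 + y.1 - (2 * t + 1)) / 2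
      else (x.1 + y.1) / 2), by
    have := x.2; have := y.2
    split_ifs <;> omega⟩

lemma qo_comm (t : ℕ) (x y : Fin (2 * t + 1)) : qo t x y = qo t y x := by
  apply Fin.ext
  simp only [qo, add_comm x.1 y.1]

lemma qo_self (t : ℕ) (x : Fin (2 * t + 1)) : qo t x x = x := by
  apply Fin.ext
  have := x.2
  simp only [qo]
  split_ifs <;> omega

lemma qo_solve (t : ℕ) (x w : Fin (2 * t + 1)) : ∃ y, qo t x y = w := by
  have h1 := x.2
  have h2 := w.2
  -- `y = 2 w - x`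
  refine ⟨⟨if x.1 ≤ 2 * w.1 then (if 2 * w.1 - x.1 < 2 * t + 1 then 2 * w.1 - x.1
    else 2 * w.1 - x.1 - (2 * t + 1)) else 2 * w.1 + (2 * t + 1) - x.1, ?_⟩, ?_⟩
  · split_ifs <;> omega
  · apply Fin.ext
    simp only [qo]
    split_ifs <;> omega

/-- negation modulo `2 t + 1` -/
def ng (t : ℕ) (x : Fin (2 * t + 1)) : Fin (2 * t + 1) :=
  ⟨if x.1 = 0 then 0 else 2 * t + 1 - x.1, by have := x.2; split_ifs <;> omega⟩

lemma ng_ng (t : ℕ) (x : Fin (2 * t + 1)) : ng t (ng t x) = x := by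
  apply Fin.ext
  have := x.2
  simp only [ng]
  split_ifs <;> omega

/-- a half-idempotent commutative operation on `Fin (2t)` -/
def qe (t : ℕ) (x y : Fin (2 * t)) : Fin (2 * t) :=
  ⟨if x.1 + y.1 < 2 * t then
      (if (x.1 + y.1) % 2 = 0 then (x.1 + y.1) / 2 else (x.1 + y.1) / 2 + t)
    else (if (x.1 + y.1 - 2 * t) % 2 = 0 then (x.1 + y.1 - 2 * t) / 2
      else (x.1 + y.1 - 2 * t) / 2 + t), by
    have := x.2; have := y.2
    split_ifs <;> omega⟩

lemma qe_comm (t : ℕ) (x y : Fin (2 * t)) : qe t x y = qe t y x := by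
  apply Fin.ext
  simp only [qe, add_comm x.1 y.1]

lemma qe_self_val (t : ℕ) (x : Fin (2 * t)) :
    (qe t x x).1 = if x.1 < t then x.1 else x.1 - t := by
  have := x.2
  simp only [qe]
  split_ifs <;> omega

lemma qe_solve (t : ℕ) (x w : Fin (2 * t)) : ∃ y, qe t x y = w := by
  have h1 := x.2
  have h2 := w.2
  obtain ⟨u, hu1, hu2⟩ : ∃ u, u < 2 * t ∧
      ((u % 2 = 0 ∧ w.1 = u / 2) ∨ (u % 2 = 1 ∧ w.1 = u / 2 + t)) := by
    by_cases hw : w.1 < t
    · exact ⟨2 * w.1, by omega, Or.inl (by omega)⟩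
    · exact ⟨2 * (w.1 - t) + 1, by omega, Or.inr (by omega)⟩
  refine ⟨⟨if x.1 ≤ u then u - x.1 else u + 2 * t - x.1, ?_⟩, ?_⟩
  · split_ifs <;> omega
  · apply Fin.ext
    simp only [qe]
    split_ifs <;> omega

/-! ### `6 t + 3` points -/

lemma cov_6t3 (t : ℕ) :
    Cov 3 (Fin (2 * t + 1) × Fin 3) (3 * (2 * t + 1).choose 2 + (2 * t + 1)) := by
  classical
  set g : Fin (2 * t + 1) → Fin 3 → Fin (2 * t + 1) × Fin 3 := fun x i => (x, i) with hg
  have hq : ∀ (i : Fin 3) (x y : Fin (2 * t + 1)), qo t x y = qo t y x := fun _ => qo_comm t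
  refine cov_three (ι := ({e : Sym2 (Fin (2 * t + 1)) // ¬ e.IsDiag} × Fin 3) ⊕ Fin (2 * t + 1))
    (Sum.elim (blk g (fun _ => qo t) hq) (fun x => {g x 0, g x 1, g x 2})) ?_ ?_ ?_
  · rintro (p | x)
    · exact blk_card g _ hq p
    · exact card_le_three
  · rintro ⟨x, i⟩ ⟨y, j⟩ hne
    refine blk_cover g (fun _ => qo t) hq (fun _ => qo_solve t)
      (fun a b => ∃ i, a ∈ Sum.elim (blk g (fun _ => qo t) hq)
        (fun x => {g x 0, g x 1, g x 2}) i ∧ b ∈ Sum.elim (blk g (fun _ => qo t) hq)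
        (fun x => {g x 0, g x 1, g x 2}) i) ?_ ?_ ?_ x i y j hne
    · rintro a b ⟨i, h1, h2⟩; exact ⟨i, h2, h1⟩
    · intro p a b ha hb; exact ⟨Sum.inl p, ha, hb⟩
    · intro i x
      refine ⟨Sum.inr x, ?_⟩
      simp only [qo_self, Sum.elim_inr]
      fin_cases i <;> simp
  · rw [Fintype.card_sum, Fintype.card_prod, Sym2.card_subtype_not_diag, Fintype.card_fin,
      Fintype.card_fin]
    omega

/-! ### `6 t + 1` points -/

lemma cov_6t1 (t : ℕ) :
    Cov 3 (Option (Fin (2 * t) × Fin 3)) (3 * (2 * t).choose 2 + 4 * t) := by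
  classical
  set g : Fin (2 * t) → Fin 3 → Option (Fin (2 * t) × Fin 3) := fun x i => some (x, i) with hg
  have hq : ∀ (i : Fin 3) (x y : Fin (2 * t)), qe t x y = qe t y x := fun _ => qe_comm t
  set lo : Fin t → Fin (2 * t) := fun x => ⟨x.1, by have := x.2; omega⟩ with hlo
  set hi : Fin t → Fin (2 * t) := fun x => ⟨x.1 + t, by have := x.2; omega⟩ with hhi
  set F : ({e : Sym2 (Fin (2 * t)) // ¬ e.IsDiag} × Fin 3) ⊕ (Fin t ⊕ Fin t × Fin 3) →
      Finset (Option (Fin (2 * t) × Fin 3)) :=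
    Sum.elim (blk g (fun _ => qe t) hq) (Sum.elim
      (fun x => {g (lo x) 0, g (lo x) 1, g (lo x) 2})
      (fun p => {none, g (hi p.1) p.2, g (lo p.1) (p.2 + 1)})) with hF
  have hcase : ∀ x : Fin (2 * t), (∃ z : Fin t, x = lo z) ∨ ∃ z : Fin t, x = hi z := by
    intro x
    by_cases hx : x.1 < t
    · exact Or.inl ⟨⟨x.1, hx⟩, Fin.ext rfl⟩
    · right
      refine ⟨⟨x.1 - t, by have := x.2; omega⟩, Fin.ext ?_⟩
      simp only [hhi]
      omega
  have hlo_self : ∀ z : Fin t, qe t (lo z) (lo z) = lo z := by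
    intro z
    apply Fin.ext
    rw [qe_self_val, if_pos]
    exact z.2
  have hhi_self : ∀ z : Fin t, qe t (hi z) (hi z) = lo z := by
    intro z
    apply Fin.ext
    rw [qe_self_val, if_neg]
    · simp [hhi, hlo]
    · simp [hhi]
  refine cov_three F ?_ ?_ ?_
  · rintro (p | x | p)
    · exact blk_card g _ hq p
    · exact card_le_three
    · exact card_le_three
  · have hP : ∀ a b, (∃ i, a ∈ F i ∧ b ∈ F i) → ∃ i, b ∈ F i ∧ a ∈ F i := by
      rintro a b ⟨i, h1, h2⟩; exact ⟨i, h2, h1⟩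
    have hinf : ∀ x i, ∃ s, (none : Option (Fin (2 * t) × Fin 3)) ∈ F s ∧ g x i ∈ F s := by
      intro x i
      rcases hcase x with ⟨z, rfl⟩ | ⟨z, rfl⟩
      · refine ⟨Sum.inr (Sum.inr (z, i + 2)), ?_⟩
        simp only [hF, Sum.elim_inr]
        have : i + 2 + 1 = i := by fin_cases i <;> rfl
        rw [this]
        simp
      · refine ⟨Sum.inr (Sum.inr (z, i)), ?_⟩
        simp only [hF, Sum.elim_inr]
        simp
    have hmain := blk_cover g (fun _ => qe t) hq (fun _ => qe_solve t)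
      (fun a b => ∃ i, a ∈ F i ∧ b ∈ F i) hP
      (fun p a b ha hb => ⟨Sum.inl p, ha, hb⟩) ?_
    · intro a b hne
      rcases a with _ | ⟨x, i⟩ <;> rcases b with _ | ⟨y, j⟩
      · exact absurd rfl hne
      · exact hinf y j
      · exact hP _ _ (hinf x i)
      · exact hmain x i y j hne
    · intro i x
      rcases hcase x with ⟨z, rfl⟩ | ⟨z, rfl⟩
      · refine ⟨Sum.inr (Sum.inl z), ?_⟩
        simp only [hF, Sum.elim_inr, Sum.elim_inl, hlo_self]
        fin_cases i <;> simp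
      · refine ⟨Sum.inr (Sum.inr (z, i)), ?_⟩
        simp only [hF, Sum.elim_inr, hhi_self]
        simp
  · rw [Fintype.card_sum, Fintype.card_sum, Fintype.card_prod, Fintype.card_prod,
      Sym2.card_subtype_not_diag, Fintype.card_fin, Fintype.card_fin, Fintype.card_fin]
    omega

/-! ### `6 t + 5` points -/

lemma cov_6t5 (t : ℕ) :
    Cov 3 ((Fin (2 * t + 1) × Fin 3) ⊕ Bool) (3 * (2 * t + 1).choose 2 + (6 * t + 4)) := by
  classical
  set g : Fin (2 * t + 1) → Fin 3 → (Fin (2 * t + 1) × Fin 3) ⊕ Bool :=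
    fun x i => Sum.inl (x, i) with hg
  set q : Fin 3 → Fin (2 * t + 1) → Fin (2 * t + 1) → Fin (2 * t + 1) :=
    fun i x y => if i = 2 then ng t (qo t x y) else qo t x y with hqdef
  have hq : ∀ i x y, q i x y = q i y x := by
    intro i x y
    simp only [hqdef, qo_comm t x y]
  have hs : ∀ i x w, ∃ y, q i x y = w := by
    intro i x w
    simp only [hqdef]
    by_cases hi : i = 2
    · obtain ⟨y, hy⟩ := qo_solve t x (ng t w)
      exact ⟨y, by rw [if_pos hi, hy, ng_ng]⟩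
    · obtain ⟨y, hy⟩ := qo_solve t x w
      exact ⟨y, by rw [if_neg hi, hy]⟩
  set ps : Fin t → Fin (2 * t + 1) := fun x => ⟨x.1 + 1, by have := x.2; omega⟩ with hps
  set ms : Fin t → Fin (2 * t + 1) := fun x => ⟨2 * t - x.1, by have := x.2; omega⟩ with hms
  have hps_ng : ∀ x, ng t (ps x) = ms x := by
    intro x
    apply Fin.ext
    have := x.2
    show (if x.1 + 1 = 0 then 0 else 2 * t + 1 - (x.1 + 1)) = 2 * t - x.1
    rw [if_neg (Nat.succ_ne_zero _)]
    omega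
  have hms_ng : ∀ x, ng t (ms x) = ps x := by
    intro x
    rw [← hps_ng, ng_ng]
  have hng0 : ng t 0 = 0 := by
    apply Fin.ext
    simp [ng]
  have hcase : ∀ x : Fin (2 * t + 1), x = 0 ∨ (∃ z : Fin t, x = ps z) ∨ ∃ z : Fin t, x = ms z := by
    intro x
    have hx := x.2
    by_cases h0 : x.1 = 0
    · exact Or.inl (Fin.ext (by simpa using h0))
    by_cases h1 : x.1 ≤ t
    · exact Or.inr (Or.inl ⟨⟨x.1 - 1, by omega⟩, Fin.ext (by simp only [hps]; omega)⟩)
    · exact Or.inr (Or.inr ⟨⟨2 * t - x.1, by omega⟩, Fin.ext (by simp only [hms]; omega)⟩)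
  set hx : Fin t × Fin 6 → Finset ((Fin (2 * t + 1) × Fin 3) ⊕ Bool) := fun p =>
    match p.2 with
    | 0 => {Sum.inr true, g (ps p.1) 0, g (ps p.1) 1}
    | 1 => {Sum.inr false, g (ps p.1) 1, g (ps p.1) 2}
    | 2 => {Sum.inr true, g (ps p.1) 2, g (ms p.1) 0}
    | 3 => {Sum.inr false, g (ms p.1) 0, g (ms p.1) 1}
    | 4 => {Sum.inr true, g (ms p.1) 1, g (ms p.1) 2}
    | 5 => {Sum.inr false, g (ms p.1) 2, g (ps p.1) 0} with hhx
  set fr : Fin 4 → Finset ((Fin (2 * t + 1) × Fin 3) ⊕ Bool) := fun j =>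
    match j with
    | 0 => {Sum.inr true, Sum.inr false, g 0 0}
    | 1 => {Sum.inr true, Sum.inr false, g 0 1}
    | 2 => {Sum.inr true, Sum.inr false, g 0 2}
    | 3 => {g 0 0, g 0 1, g 0 2} with hfr
  set F : ({e : Sym2 (Fin (2 * t + 1)) // ¬ e.IsDiag} × Fin 3) ⊕ (Fin t × Fin 6 ⊕ Fin 4) →
      Finset ((Fin (2 * t + 1) × Fin 3) ⊕ Bool) :=
    Sum.elim (blk g q hq) (Sum.elim hx fr) with hF
  have hFx : ∀ z j, F (Sum.inr (Sum.inl (z, j))) = hx (z, j) := fun _ _ => rfl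
  have hFf : ∀ j, F (Sum.inr (Sum.inr j)) = fr j := fun _ => rfl
  refine cov_three F ?_ ?_ ?_
  · rintro (p | ⟨z, j⟩ | j)
    · exact blk_card g _ hq p
    · rw [hFx]
      fin_cases j <;> exact card_le_three
    · rw [hFf]
      fin_cases j <;> exact card_le_three
  · have hP : ∀ a b, (∃ i, a ∈ F i ∧ b ∈ F i) → ∃ i, b ∈ F i ∧ a ∈ F i := by
      rintro a b ⟨i, h1, h2⟩; exact ⟨i, h2, h1⟩
    have hinf : ∀ (c : Bool) x i, ∃ s, (Sum.inr c : (Fin (2 * t + 1) × Fin 3) ⊕ Bool) ∈ F s ∧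
        g x i ∈ F s := by
      intro c x i
      rcases hcase x with rfl | ⟨z, rfl⟩ | ⟨z, rfl⟩
      · fin_cases i
        · exact ⟨Sum.inr (Sum.inr 0), by rw [hFf]; cases c <;> simp [hfr]⟩
        · exact ⟨Sum.inr (Sum.inr 1), by rw [hFf]; cases c <;> simp [hfr]⟩
        · exact ⟨Sum.inr (Sum.inr 2), by rw [hFf]; cases c <;> simp [hfr]⟩
      · fin_cases i <;> cases c
        · exact ⟨Sum.inr (Sum.inl (z, 5)), by rw [hFx]; simp [hhx]⟩
        · exact ⟨Sum.inr (Sum.inl (z, 0)), by rw [hFx]; simp [hhx]⟩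
        · exact ⟨Sum.inr (Sum.inl (z, 1)), by rw [hFx]; simp [hhx]⟩
        · exact ⟨Sum.inr (Sum.inl (z, 0)), by rw [hFx]; simp [hhx]⟩
        · exact ⟨Sum.inr (Sum.inl (z, 1)), by rw [hFx]; simp [hhx]⟩
        · exact ⟨Sum.inr (Sum.inl (z, 2)), by rw [hFx]; simp [hhx]⟩
      · fin_cases i <;> cases c
        · exact ⟨Sum.inr (Sum.inl (z, 3)), by rw [hFx]; simp [hhx]⟩
        · exact ⟨Sum.inr (Sum.inl (z, 2)), by rw [hFx]; simp [hhx]⟩
        · exact ⟨Sum.inr (Sum.inl (z, 3)), by rw [hFx]; simp [hhx]⟩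
        · exact ⟨Sum.inr (Sum.inl (z, 4)), by rw [hFx]; simp [hhx]⟩
        · exact ⟨Sum.inr (Sum.inl (z, 5)), by rw [hFx]; simp [hhx]⟩
        · exact ⟨Sum.inr (Sum.inl (z, 4)), by rw [hFx]; simp [hhx]⟩
    have hmain := blk_cover g q hq hs
      (fun a b => ∃ i, a ∈ F i ∧ b ∈ F i) hP
      (fun p a b ha hb => ⟨Sum.inl p, ha, hb⟩) ?_
    · intro a b hne
      rcases a with ⟨x, i⟩ | c <;> rcases b with ⟨y, j⟩ | d
      · exact hmain x i y j hne
      · exact hP _ _ (hinf d x i)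
      · exact hinf c y j
      · refine ⟨Sum.inr (Sum.inr 0), ?_⟩
        rw [hFf]
        cases c <;> cases d <;> simp [hfr]
    · intro i x
      rcases hcase x with rfl | ⟨z, rfl⟩ | ⟨z, rfl⟩
      · refine ⟨Sum.inr (Sum.inr 3), ?_⟩
        rw [hFf]
        simp only [hqdef, qo_self, hng0, ite_self]
        fin_cases i <;> simp [hfr]
      · simp only [hqdef, qo_self, hps_ng]
        fin_cases i
        · exact ⟨Sum.inr (Sum.inl (z, 0)), by rw [hFx]; simp [hhx]⟩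
        · exact ⟨Sum.inr (Sum.inl (z, 1)), by rw [hFx]; simp [hhx]⟩
        · exact ⟨Sum.inr (Sum.inl (z, 2)), by rw [hFx]; simp [hhx]⟩
      · simp only [hqdef, qo_self, hms_ng]
        fin_cases i
        · exact ⟨Sum.inr (Sum.inl (z, 3)), by rw [hFx]; simp [hhx]⟩
        · exact ⟨Sum.inr (Sum.inl (z, 4)), by rw [hFx]; simp [hhx]⟩
        · exact ⟨Sum.inr (Sum.inl (z, 5)), by rw [hFx]; simp [hhx]⟩
  · simp only [Fintype.card_sum, Fintype.card_prod, Sym2.card_subtype_not_diag, Fintype.card_fin]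
    omega

end Pool.Agent.Helper32.TC
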